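import Pool.Agent.helper47.RA.Num

set_option autoImplicit false

/-!
# LT module RK: Rankin's trick
-/

namespace Pool.Agent.helper28.LT

open Finset

/-- `z ↦ z ^ (-ε)` -/
noncomputable def RK_f (ε : ℝ) (_hε : 0 < ε) : ℕ →* ℝ where
  toFun n := (n : ℝ) ^ (-ε)
  map_one' := by simp
  map_mul' m n := by
    rw [Nat.cast_mul, Real.mul_rpow (Nat.cast_nonneg _) (Nat.cast_nonneg _)]

lemma RK_f_apply (ε : ℝ) (hε : 0 < ε) (n : ℕ) : RK_f ε hε n = (n : ℝ) ^ (-ε) := rfl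

lemma RK_lt {ε : ℝ} (hε : 0 < ε) {p : ℕ} (hp : p.Prime) : ‖RK_f ε hε p‖ < 1 := by
  rw [RK_f_apply, Real.norm_of_nonneg (by positivity)]
  apply Real.rpow_lt_one_of_one_lt_of_neg
  · exact_mod_cast hp.one_lt
  · linarith

lemma RK_two (δ : ℝ) (hδ : 0 < δ) : ∃ C : ℝ, 1 ≤ C ∧ ∀ y : ℕ, 1 ≤ y →
    (2 : ℝ) ^ y.primeFactors.card ≤ C * (y : ℝ) ^ δ := by
  obtain ⟨C, hC, h⟩ := Pool.Agent.helper47.RA.card_divisors_le δ hδ
  refine ⟨C, hC, fun y hy => le_trans ?_ (h y hy)⟩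
  have h1 : 2 ^ y.primeFactors.card ≤ y.divisors.card := by
    rw [Nat.card_divisors (by omega), ← Finset.prod_const]
    refine Finset.prod_le_prod' fun p hp => ?_
    have hpp := Nat.prime_of_mem_primeFactors hp
    have := (hpp.factorization_pos_of_dvd (by omega) (Nat.dvd_of_mem_primeFactors hp))
    omega
  exact_mod_cast h1

lemma RK_pow (A ε : ℝ) (hA : 1 ≤ A) (hε : 0 < ε) : ∃ C : ℝ, 1 ≤ C ∧ ∀ f : ℕ, 1 ≤ f →
    A ^ f.primeFactors.card ≤ C * (f : ℝ) ^ ε := by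
  obtain ⟨m, hm⟩ := pow_unbounded_of_one_lt A (one_lt_two : (1 : ℝ) < 2)
  obtain ⟨C, hC1, hC⟩ := RK_two (ε / (m + 1)) (by positivity)
  refine ⟨C ^ (m + 1), one_le_pow₀ hC1, fun f hf => ?_⟩
  have h1 := hC f hf
  have h2 : A ≤ (2 : ℝ) ^ (m + 1) := by
    rw [pow_succ]
    have : (0 : ℝ) < 2 ^ m := by positivity
    linarith
  calc A ^ f.primeFactors.card ≤ ((2 : ℝ) ^ (m + 1)) ^ f.primeFactors.card := by gcongr
    _ = ((2 : ℝ) ^ f.primeFactors.card) ^ (m + 1) := by rw [← pow_mul, ← pow_mul, mul_comm]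
    _ ≤ (C * (f : ℝ) ^ (ε / (m + 1))) ^ (m + 1) := by gcongr
    _ = C ^ (m + 1) * (f : ℝ) ^ ε := by
        rw [mul_pow, ← Real.rpow_natCast ((f : ℝ) ^ (ε / (m + 1))), ← Real.rpow_mul (by positivity)]
        congr 2
        push_cast
        field_simp

open Classical in
/-- RK: Rankin -/
theorem card_smooth (ε : ℝ) (hε : 0 < ε) : ∃ C : ℝ, 1 ≤ C ∧ ∀ X f : ℕ, 1 ≤ X → 1 ≤ f →
    (((Icc 1 X).filter (fun z => ∀ p : ℕ, p.Prime → p ∣ z → p ∣ f)).card : ℝ) ≤
      C * (X : ℝ) ^ ε * (f : ℝ) ^ ε := by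
  have h2 : (2 : ℝ) ^ (-ε) < 1 := Real.rpow_lt_one_of_one_lt_of_neg (by norm_num) (by linarith)
  have h20 : (0 : ℝ) < (2 : ℝ) ^ (-ε) := by positivity
  set A : ℝ := (1 - (2 : ℝ) ^ (-ε))⁻¹ with hA
  have hA1 : 1 ≤ A := (one_le_inv₀ (by linarith)).2 (by linarith)
  obtain ⟨C, hC1, hC⟩ := RK_pow A ε hA1 hε
  refine ⟨C, hC1, fun X f hX hf => ?_⟩
  set s : Finset ℕ := f.primeFactors with hs
  have hsum := (EulerProduct.summable_and_hasSum_factoredNumbers_prod_filter_prime_geometric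
    (f := RK_f ε hε) (fun {p} hp => RK_lt hε hp) s).2
  have hsum2 := (hasSum_subtype_iff_indicator (f := fun m : ℕ => RK_f ε hε m)).1 hsum
  have hprod : ∏ p ∈ s with p.Prime, (1 - RK_f ε hε p)⁻¹ ≤ A ^ s.card := by
    have hfil : s.filter Nat.Prime = s := by
      apply Finset.filter_true_of_mem
      intro p hp
      exact Nat.prime_of_mem_primeFactors hp
    rw [hfil]
    rw [← Finset.prod_const]
    apply Finset.prod_le_prod
    · intro p hp
      have hpp := Nat.prime_of_mem_primeFactors hp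
      have := RK_lt hε hpp
      rw [RK_f_apply, Real.norm_of_nonneg (by positivity)] at this
      rw [RK_f_apply]
      exact inv_nonneg.2 (by linarith)
    · intro p hp
      have hpp := Nat.prime_of_mem_primeFactors hp
      rw [RK_f_apply, hA]
      have h3 : (p : ℝ) ^ (-ε) ≤ (2 : ℝ) ^ (-ε) := by
        rw [Real.rpow_neg (by positivity), Real.rpow_neg (by positivity)]
        have : (2 : ℝ) ≤ p := by exact_mod_cast hpp.two_le
        gcongr
      exact inv_anti₀ (by linarith) (by linarith)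
  set W := (Icc 1 X).filter (fun z => ∀ p : ℕ, p.Prime → p ∣ z → p ∣ f) with hW
  have hle : ∑ z ∈ W, (z : ℝ) ^ (-ε) ≤ ∏ p ∈ s with p.Prime, (1 - RK_f ε hε p)⁻¹ := by
    have h3 := sum_le_hasSum W (fun z _ => ?_) hsum2
    · refine le_trans (le_of_eq ?_) h3
      refine Finset.sum_congr rfl fun z hz => ?_
      rw [hW, Finset.mem_filter, Finset.mem_Icc] at hz
      rw [Set.indicator_of_mem, RK_f_apply]
      rw [Nat.mem_factoredNumbers]
      refine ⟨by omega, fun p hp => ?_⟩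
      have hpp := Nat.prime_of_mem_primeFactorsList hp
      exact Nat.mem_primeFactors.2 ⟨hpp, hz.2 p hpp (Nat.dvd_of_mem_primeFactorsList hp), by omega⟩
    · apply Set.indicator_nonneg
      intro x _
      rw [RK_f_apply]; positivity
  have hcard : (W.card : ℝ) ≤ (X : ℝ) ^ ε * ∑ z ∈ W, (z : ℝ) ^ (-ε) := by
    rw [Finset.mul_sum, Finset.card_eq_sum_ones]
    push_cast
    apply Finset.sum_le_sum
    intro z hz
    rw [hW, Finset.mem_filter, Finset.mem_Icc] at hz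
    have hz0 : (0 : ℝ) < z := by exact_mod_cast (by omega : 0 < z)
    have hzX : (z : ℝ) ≤ X := by exact_mod_cast hz.1.2
    rw [Real.rpow_neg hz0.le, ← div_eq_mul_inv, ← Real.div_rpow (by positivity) hz0.le]
    apply Real.one_le_rpow _ hε.le
    rw [one_le_div hz0]; exact hzX
  calc (W.card : ℝ) ≤ (X : ℝ) ^ ε * ∑ z ∈ W, (z : ℝ) ^ (-ε) := hcard
    _ ≤ (X : ℝ) ^ ε * (C * (f : ℝ) ^ ε) := by
        gcongr
        exact hle.trans (hprod.trans (hC f hf))
    _ = C * (X : ℝ) ^ ε * (f : ℝ) ^ ε := by ring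

end Pool.Agent.helper28.LT
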