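import Pool.Agent.helper28.LT.Base
import Pool.Agent.helper61.FT.A1

set_option autoImplicit false

/-!
# LT module DI: elements of a plane lattice in different directions
-/

namespace Pool.Agent.helper28.LT

open Finset NumberField Pool.Agent.helper3.FT Pool.Agent.helper47.RA

/-- a separated set of reals in an interval -/
lemma DI_sep {ι : Type} (J : Finset ι) (f : ι → ℝ) (L δ : ℝ) (hδ : 0 < δ)
    (h1 : ∀ i ∈ J, |f i| ≤ L) (h2 : ∀ i ∈ J, ∀ j ∈ J, i ≠ j → δ ≤ |f i - f j|) (hL : 0 ≤ L) :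
    (J.card : ℝ) ≤ 1 + 2 * L / δ := by
  have hmap : ∀ i ∈ J, ⌊(f i + L) / δ⌋₊ ∈ range (⌊2 * L / δ⌋₊ + 1) := by
    intro i hi
    have := abs_le.1 (h1 i hi)
    rw [Finset.mem_range, Nat.lt_succ_iff]
    apply Nat.floor_le_floor
    gcongr
    linarith
  have hinj : Set.InjOn (fun i => ⌊(f i + L) / δ⌋₊) (J : Set ι) := by
    intro i hi j hj hij
    by_contra hne
    have h3 := h2 i hi j hj hne
    have a1 := abs_le.1 (h1 i hi)
    have a2 := abs_le.1 (h1 j hj)
    have b1 : 0 ≤ (f i + L) / δ := div_nonneg (by linarith) hδ.le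
    have b2 : 0 ≤ (f j + L) / δ := div_nonneg (by linarith) hδ.le
    have c1 := Nat.floor_le b1
    have c2 := Nat.lt_floor_add_one ((f i + L) / δ)
    have c3 := Nat.floor_le b2
    have c4 := Nat.lt_floor_add_one ((f j + L) / δ)
    simp only at hij
    rw [hij] at c1 c2
    have e1 : |(f i + L) / δ - (f j + L) / δ| < 1 := by
      rw [abs_lt]; constructor <;> linarith
    have e2 : (f i + L) / δ - (f j + L) / δ = (f i - f j) / δ := by ring
    rw [e2, abs_div, abs_of_pos hδ, div_lt_one hδ] at e1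
    linarith
  have h3 : J.card ≤ ⌊2 * L / δ⌋₊ + 1 := by
    rw [← Finset.card_range (⌊2 * L / δ⌋₊ + 1)]
    exact Finset.card_le_card_of_injOn _ hmap hinj
  have h4 : (J.card : ℝ) ≤ ⌊2 * L / δ⌋₊ + 1 := by exact_mod_cast h3
  have h5 : (⌊2 * L / δ⌋₊ : ℝ) ≤ 2 * L / δ := Nat.floor_le (by positivity)
  linarith

/-- one chart -/
lemma DI_chart {ι : Type} (J : Finset ι) (S T : ι → ℝ) (V ρ d : ℝ) (hV : 0 < V) (hρ : 0 < ρ)
    (hd : 0 < d) (hS : ∀ i ∈ J, S i ≠ 0) (hST : ∀ i ∈ J, d * |T i| ≤ |S i|)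
    (hSρ : ∀ i ∈ J, S i ^ 2 ≤ ρ)
    (hdet : ∀ i ∈ J, ∀ j ∈ J, i ≠ j → V ≤ |T i * S j - T j * S i|) :
    (J.card : ℝ) ≤ 1 + 2 * ρ / (V * d) := by
  have h := DI_sep J (fun i => T i / S i) (1 / d) (V / ρ) (by positivity) ?_ ?_ (by positivity)
  · refine h.trans (le_of_eq ?_)
    field_simp
  · intro i hi
    have h1 := hST i hi
    have h2 : 0 < |S i| := abs_pos.2 (hS i hi)
    rw [abs_div, div_le_div_iff₀ h2 hd]
    linarith
  · intro i hi j hj hij
    have h1 : 0 < |S i| := abs_pos.2 (hS i hi)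
    have h2 : 0 < |S j| := abs_pos.2 (hS j hj)
    have h3 : T i / S i - T j / S j = (T i * S j - T j * S i) / (S i * S j) := by
      have := hS i hi
      have := hS j hj
      field_simp
    rw [h3, abs_div, abs_mul]
    have h4 := hdet i hi j hj hij
    have h5 : |S i| * |S j| ≤ ρ := by
      have e1 := hSρ i hi
      have e2 := hSρ j hj
      rw [← sq_abs] at e1 e2
      nlinarith [sq_nonneg (|S i| - |S j|)]
    exact div_le_div₀ (abs_nonneg _) h4 (by positivity) h5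

/-- DI: directions -/
theorem directions {K : Type} [Field K] [NumberField K] (Q : QF K) (hneg : Q.D < 0) {ι : Type}
    [Fintype ι] (x : ι → 𝓞 K) (N : ι → ℤ)
    (V : ℕ) (hV : 1 ≤ V) (ρ2 : ℝ) (hρ0 : 0 ≤ ρ2) (hN : ∀ i, x i * Q.cj (x i) = N i)
    (hρ : ∀ i, (N i : ℝ) ≤ ρ2)
    (hdiv : ∀ i j, (V : ℤ) ∣ Q.Y (x i * Q.cj (x j)))
    (hne : ∀ i j, i ≠ j → Q.Y (x i * Q.cj (x j)) ≠ 0) :
    (Fintype.card ι : ℝ) ≤ 2 + 8 * ρ2 / (V * √(-Q.D : ℝ)) := by
  classical
  have hDpos : (0 : ℝ) < -Q.D := by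
    have : ((Q.D : ℤ) : ℝ) < 0 := by exact_mod_cast hneg
    linarith
  set d : ℝ := √(-Q.D : ℝ) with hd
  have hd0 : 0 < d := Real.sqrt_pos.2 hDpos
  have hd2 : d ^ 2 = -Q.D := Real.sq_sqrt hDpos.le
  have hV0 : (0 : ℝ) < V := by exact_mod_cast hV
  rcases le_or_gt (Fintype.card ι) 1 with h1 | h1
  · have h2 : (Fintype.card ι : ℝ) ≤ 1 := by exact_mod_cast h1
    have h3 : 0 ≤ 8 * ρ2 / (V * d) := by positivity
    linarith
  have hother : ∀ i : ι, ∃ j, j ≠ i := fun i => by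
    have : Nontrivial ι := Fintype.one_lt_card_iff_nontrivial.1 h1
    exact exists_ne i
  choose X hX using fun i => Q.exists_re (x i)
  set T : ι → ℤ := fun i => Q.Y (x i) with hT
  set S : ι → ℤ := fun i => 2 * X i + Q.t * T i with hS
  have ht2 := Q.t_sq
  -- norms
  have hnorm : ∀ i, 4 * N i = S i ^ 2 - Q.D * T i ^ 2 := by
    intro i
    have e1 : N i = X i ^ 2 + Q.t * X i * T i - Q.k * T i ^ 2 := by
      have h := hN i
      rw [hX i] at h
      change ((X i : 𝓞 K) + (T i : ℤ) * Q.ω) * Q.cj ((X i : 𝓞 K) + (T i : ℤ) * Q.ω) = _ at h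
      rw [Q.norm_form] at h
      exact (QF.int_inj h).symm
    rw [e1, Q.hk]
    simp only [hS]
    linear_combination (-(T i) ^ 2) * ht2
  have hdet : ∀ i j, Q.Y (x i * Q.cj (x j)) = T i * X j - X i * T j := by
    intro i j
    apply Q.Y_eq (x := X i * X j + Q.t * X i * T j - Q.k * T i * T j)
    conv_lhs => rw [hX i, hX j]
    change ((X i : 𝓞 K) + (T i : ℤ) * Q.ω) * Q.cj ((X j : 𝓞 K) + (T j : ℤ) * Q.ω) = _
    rw [Q.cj_form]
    push_cast
    linear_combination (-(T i : 𝓞 K) * (T j : 𝓞 K)) * Q.hω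
  have hdet2 : ∀ i j, T i * S j - T j * S i = 2 * Q.Y (x i * Q.cj (x j)) := by
    intro i j
    rw [hdet]
    simp only [hS]
    ring
  have hbig : ∀ i j, i ≠ j → (2 * V : ℝ) ≤ |(T i : ℝ) * S j - T j * S i| := by
    intro i j hij
    have h2 : (V : ℤ) ≤ |Q.Y (x i * Q.cj (x j))| := by
      have := Int.le_of_dvd (abs_pos.2 (hne i j hij)) ((dvd_abs _ _).2 (hdiv i j))
      exact this
    have h3 : (2 * V : ℤ) ≤ |T i * S j - T j * S i| := by
      rw [hdet2, abs_mul]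
      have : |(2 : ℤ)| = 2 := rfl
      rw [this]; linarith
    exact_mod_cast h3
  have hnormR : ∀ i, (S i : ℝ) ^ 2 + d ^ 2 * (T i : ℝ) ^ 2 ≤ 4 * ρ2 := by
    intro i
    have h2 : (4 * N i : ℝ) = (S i : ℝ) ^ 2 - Q.D * (T i : ℝ) ^ 2 := by exact_mod_cast hnorm i
    rw [hd2]
    have := hρ i
    linarith
  have hnz : ∀ i, ¬ (S i = 0 ∧ T i = 0) := by
    rintro i ⟨a, b⟩
    obtain ⟨j, hj⟩ := hother i
    apply hne i j (Ne.symm hj)
    have h2 := hdet2 i j
    rw [a, b] at h2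
    simp at h2
    exact h2
  have hρpos : 0 < ρ2 := by
    have : Nonempty ι := Fintype.card_pos_iff.1 (by omega)
    obtain ⟨i⟩ := ‹Nonempty ι›
    by_contra h0
    have h2 := hnormR i
    have h3 : (S i : ℝ) ^ 2 ≤ 0 := by nlinarith [mul_nonneg (sq_nonneg d) (sq_nonneg (T i : ℝ))]
    have h4 : (T i : ℝ) ^ 2 ≤ 0 := by
      have : d ^ 2 * (T i : ℝ) ^ 2 ≤ 0 := by nlinarith [sq_nonneg (S i : ℝ)]
      have hd2pos : 0 < d ^ 2 := by positivity
      by_contra h5
      have : 0 < d ^ 2 * (T i : ℝ) ^ 2 := mul_pos hd2pos (not_le.1 h5)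
      linarith
    apply hnz i
    constructor
    · have : (S i : ℝ) = 0 := by nlinarith [sq_nonneg (S i : ℝ)]
      exact_mod_cast this
    · have : (T i : ℝ) = 0 := by nlinarith [sq_nonneg (T i : ℝ)]
      exact_mod_cast this
  set J1 : Finset ι := univ.filter (fun i => d * |(T i : ℝ)| ≤ |(S i : ℝ)|) with hJ1
  set J2 : Finset ι := univ.filter (fun i => ¬ d * |(T i : ℝ)| ≤ |(S i : ℝ)|) with hJ2
  have hsplit : J1.card + J2.card = Fintype.card ι := by
    rw [hJ1, hJ2, Finset.card_filter_add_card_filter_not, Finset.card_univ]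
  have hc1 := DI_chart J1 (fun i => (S i : ℝ)) (fun i => (T i : ℝ)) (2 * V) (4 * ρ2) d (by positivity)
    (by positivity) hd0 ?_ ?_ ?_ ?_
  rotate_left
  · intro i hi h0
    rw [hJ1, Finset.mem_filter] at hi
    have h2 := hi.2
    rw [h0, abs_zero] at h2
    have h3 : (T i : ℝ) = 0 := by
      have : |(T i : ℝ)| ≤ 0 := by
        by_contra h5
        have := mul_pos hd0 (not_le.1 h5)
        linarith
      exact abs_eq_zero.1 (le_antisymm this (abs_nonneg _))
    exact hnz i ⟨by exact_mod_cast h0, by exact_mod_cast h3⟩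
  · intro i hi
    rw [hJ1, Finset.mem_filter] at hi
    exact hi.2
  · intro i hi
    have := hnormR i
    have h3 : 0 ≤ d ^ 2 * (T i : ℝ) ^ 2 := by positivity
    linarith
  · intro i hi j hj hij
    exact hbig i j hij
  have hc2 := DI_chart J2 (fun i => (T i : ℝ)) (fun i => (S i : ℝ)) (2 * V) (4 * ρ2 / d ^ 2) (1 / d)
    (by positivity) (by positivity) (by positivity) ?_ ?_ ?_ ?_
  rotate_left
  · intro i hi h0
    rw [hJ2, Finset.mem_filter] at hi
    apply hi.2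
    rw [h0, abs_zero, mul_zero]
    exact abs_nonneg _
  · intro i hi
    rw [hJ2, Finset.mem_filter] at hi
    have h2 := not_le.1 hi.2
    rw [one_div, inv_mul_le_iff₀ hd0]
    exact h2.le
  · intro i hi
    have h2 := hnormR i
    have h3 : (0 : ℝ) ≤ (S i : ℝ) ^ 2 := by positivity
    rw [le_div_iff₀ (by positivity)]
    nlinarith
  · intro i hi j hj hij
    have h2 := hbig i j hij
    have h3 : (S i : ℝ) * T j - S j * T i = -((T i : ℝ) * S j - T j * S i) := by ring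
    rw [h3, abs_neg]
    exact h2
  have hc : (Fintype.card ι : ℝ) = J1.card + J2.card := by exact_mod_cast hsplit.symm
  rw [hc]
  have e1 : 2 * (4 * ρ2) / (2 * (V : ℝ) * d) = 4 * ρ2 / (V * d) := by field_simp
  have e2 : 2 * (4 * ρ2 / d ^ 2) / (2 * (V : ℝ) * (1 / d)) = 4 * ρ2 / (V * d) := by field_simp
  have e3 : 8 * ρ2 / ((V : ℝ) * d) = 4 * ρ2 / (V * d) + 4 * ρ2 / (V * d) := by ring
  rw [e1] at hc1
  rw [e2] at hc2
  rw [e3]
  linarith

end Pool.Agent.helper28.LT
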