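import Pool.Agent.helper28.LT.Base
import Pool.Agent.helper61.FT.A1

set_option autoImplicit false

/-!
# LT module PJ: projective classes
-/

namespace Pool.Agent.helper28.LT

open Finset NumberField Pool.Agent.helper3.FT Pool.Agent.helper47.RA

/-- the coefficient of `ω` in the fifth power -/
def PJ_F (t k X T : ℤ) : ℤ := 5 * X ^ 4 * T + 10 * t * X ^ 3 * T ^ 2 + 10 * (k + t ^ 2) * X ^ 2 * T ^ 3
  + 5 * (2 * k * t + t ^ 3) * X * T ^ 4 + (k ^ 2 + 3 * k * t ^ 2 + t ^ 4) * T ^ 5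

lemma PJ_Y5 {K : Type} [Field K] [NumberField K] (Q : QF K) (X T : ℤ) :
    Q.Y (((X : 𝓞 K) + T * Q.ω) ^ 5) = PJ_F Q.t Q.k X T := by
  apply Q.Y_eq (x := X ^ 5 + 10 * Q.k * X ^ 3 * T ^ 2 + 10 * (Q.t * Q.k) * X ^ 2 * T ^ 3
    + 5 * (Q.k ^ 2 + Q.t ^ 2 * Q.k) * X * T ^ 4 + (2 * Q.k * Q.t + Q.t ^ 3) * Q.k * T ^ 5)
  have h2 : Q.ω ^ 2 = (Q.k : 𝓞 K) + Q.t * Q.ω := by rw [sq]; exact Q.hω
  have h3 : Q.ω ^ 3 = (Q.t : 𝓞 K) * Q.k + (Q.k + Q.t ^ 2) * Q.ω := by
    have : Q.ω ^ 3 = Q.ω ^ 2 * Q.ω := by ring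
    rw [this, h2]; linear_combination (Q.t : 𝓞 K) * h2
  have h4 : Q.ω ^ 4 = ((Q.k : 𝓞 K) ^ 2 + Q.t ^ 2 * Q.k) + (2 * Q.k * Q.t + Q.t ^ 3) * Q.ω := by
    have : Q.ω ^ 4 = Q.ω ^ 3 * Q.ω := by ring
    rw [this, h3]; linear_combination ((Q.k : 𝓞 K) + Q.t ^ 2) * h2
  have h5 : Q.ω ^ 5 = (2 * (Q.k : 𝓞 K) * Q.t + Q.t ^ 3) * Q.k
      + (Q.k ^ 2 + 3 * Q.k * Q.t ^ 2 + Q.t ^ 4) * Q.ω := by
    have : Q.ω ^ 5 = Q.ω ^ 4 * Q.ω := by ring
    rw [this, h4]; linear_combination (2 * (Q.k : 𝓞 K) * Q.t + Q.t ^ 3) * h2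
  unfold PJ_F
  push_cast
  linear_combination 10 * (X : 𝓞 K) ^ 3 * T ^ 2 * h2 + 10 * (X : 𝓞 K) ^ 2 * T ^ 3 * h3
    + 5 * (X : 𝓞 K) * T ^ 4 * h4 + (T : 𝓞 K) ^ 5 * h5

/-- the roots modulo a prime -/
lemma PJ_roots (q : ℕ) [Fact q.Prime] (t k : ℤ) : ∃ R : Finset (ZMod q), R.card ≤ 5 ∧
    ∀ X T : ℤ, (T : ZMod q) ≠ 0 → (q : ℤ) ∣ PJ_F t k X T → (X : ZMod q) / T ∈ R := by
  classical
  by_cases hq : q = 5
  · subst hq
    refine ⟨univ, ?_, fun X T _ _ => Finset.mem_univ _⟩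
    rw [Finset.card_univ, ZMod.card]
  · set p : Polynomial (ZMod q) := Polynomial.C 5 * Polynomial.X ^ 4
      + Polynomial.C (10 * (t : ZMod q)) * Polynomial.X ^ 3
      + Polynomial.C (10 * ((k : ZMod q) + t ^ 2)) * Polynomial.X ^ 2
      + Polynomial.C (5 * (2 * (k : ZMod q) * t + t ^ 3)) * Polynomial.X
      + Polynomial.C ((k : ZMod q) ^ 2 + 3 * k * t ^ 2 + t ^ 4) with hp
    have h5 : (5 : ZMod q) ≠ 0 := by
      intro h
      have h1 : ((5 : ℕ) : ZMod q) = 0 := by exact_mod_cast h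
      rw [ZMod.natCast_eq_zero_iff] at h1
      exact hq ((Nat.prime_dvd_prime_iff_eq Fact.out (by norm_num)).1 h1)
    have hc4 : p.coeff 4 = 5 := by
      rw [hp]
      simp only [Polynomial.coeff_add, Polynomial.coeff_C_mul, Polynomial.coeff_X_pow,
        Polynomial.coeff_X, Polynomial.coeff_C]
      norm_num
    have hp0 : p ≠ 0 := by
      intro h
      rw [h] at hc4
      simp at hc4
      exact h5 hc4.symm
    have hdeg : p.natDegree ≤ 4 := by
      rw [hp]; compute_degree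
    refine ⟨p.roots.toFinset, ?_, fun X T hT hd => ?_⟩
    · have h1 := Multiset.toFinset_card_le p.roots
      have h2 := Polynomial.card_roots' p
      omega
    · rw [Multiset.mem_toFinset, Polynomial.mem_roots hp0, Polynomial.IsRoot.def, hp]
      simp only [Polynomial.eval_add, Polynomial.eval_mul, Polynomial.eval_C, Polynomial.eval_pow,
        Polynomial.eval_X]
      have h1 : ((PJ_F t k X T : ℤ) : ZMod q) = 0 := (ZMod.intCast_zmod_eq_zero_iff_dvd _ _).2 hd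
      unfold PJ_F at h1
      push_cast at h1
      have h2 : (T : ZMod q) ^ 5 ≠ 0 := pow_ne_zero _ hT
      have h3 : (5 * ((X : ZMod q) / T) ^ 4 + 10 * (t : ZMod q) * ((X : ZMod q) / T) ^ 3
          + 10 * ((k : ZMod q) + t ^ 2) * ((X : ZMod q) / T) ^ 2
          + 5 * (2 * (k : ZMod q) * t + t ^ 3) * ((X : ZMod q) / T)
          + ((k : ZMod q) ^ 2 + 3 * k * t ^ 2 + t ^ 4)) * (T : ZMod q) ^ 5 = 0 := by
        rw [← h1]
        field_simp
      exact (mul_eq_zero.1 h3).resolve_right h2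

/-- classes modulo one prime -/
lemma PJ_one (q : ℕ) [Fact q.Prime] (t k : ℤ) {ι : Type} (X T : ι → ℤ)
    (h : ∀ i, (q : ℤ) ∣ PJ_F t k (X i) (T i)) :
    ∃ c : ι → Fin 6, ∀ i j, c i = c j → (q : ℤ) ∣ T i * X j - X i * T j := by
  classical
  obtain ⟨R, hR, hroot⟩ := PJ_roots q t k
  have hcard : Fintype.card (Option {ρ // ρ ∈ R}) ≤ Fintype.card (Fin 6) := by
    rw [Fintype.card_option, Fintype.card_coe, Fintype.card_fin]; omega
  obtain ⟨e⟩ := Function.Embedding.nonempty_of_card_le hcard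
  set g : ι → Option {ρ // ρ ∈ R} := fun i =>
    if hT : (T i : ZMod q) = 0 then none else some ⟨(X i : ZMod q) / T i, hroot _ _ hT (h i)⟩ with hg
  refine ⟨fun i => e (g i), fun i j hij => ?_⟩
  have h1 : g i = g j := e.injective hij
  rw [← ZMod.intCast_zmod_eq_zero_iff_dvd]
  push_cast
  simp only [hg] at h1
  by_cases hi : (T i : ZMod q) = 0
  · by_cases hj : (T j : ZMod q) = 0
    · rw [hi, hj]; ring
    · rw [dif_pos hi, dif_neg hj] at h1
      exact absurd h1 (by simp)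
  · by_cases hj : (T j : ZMod q) = 0
    · rw [dif_neg hi, dif_pos hj] at h1
      exact absurd h1 (by simp)
    · rw [dif_neg hi, dif_neg hj] at h1
      have h2 := congrArg Subtype.val (Option.some_injective _ h1)
      simp only at h2
      rw [div_eq_div_iff hi hj] at h2
      linear_combination -h2

/-- PJ: projective classes -/
theorem proj_classes {K : Type} [Field K] [NumberField K] (Q : QF K) (r : ℕ) (hr : Squarefree r)
    {ι : Type} (x : ι → 𝓞 K)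
    (h : ∀ i, (r : ℤ) ∣ Q.Y ((x i) ^ 5)) :
    ∃ c : ι → Fin (6 ^ r.primeFactors.card), ∀ i j, c i = c j →
      (r : ℤ) ∣ Q.Y (x i * Q.cj (x j)) := by
  classical
  choose X hX using fun i => Q.exists_re (x i)
  set T : ι → ℤ := fun i => Q.Y (x i) with hT
  have hY5 : ∀ i, Q.Y ((x i) ^ 5) = PJ_F Q.t Q.k (X i) (T i) := by
    intro i
    conv_lhs => rw [hX i]
    exact PJ_Y5 Q (X i) (T i)
  have hdet : ∀ i j, Q.Y (x i * Q.cj (x j)) = T i * X j - X i * T j := by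
    intro i j
    apply Q.Y_eq (x := X i * X j + Q.t * X i * T j - Q.k * T i * T j)
    conv_lhs => rw [hX i, hX j]
    change ((X i : 𝓞 K) + (T i : ℤ) * Q.ω) * Q.cj ((X j : 𝓞 K) + (T j : ℤ) * Q.ω) = _
    rw [Q.cj_form]
    push_cast
    linear_combination (-(T i : 𝓞 K) * (T j : 𝓞 K)) * Q.hω
  have hone : ∀ q : {q // q ∈ r.primeFactors}, ∃ c : ι → Fin 6, ∀ i j, c i = c j →
      ((q : ℕ) : ℤ) ∣ T i * X j - X i * T j := by
    rintro ⟨q, hq⟩
    have : Fact q.Prime := ⟨Nat.prime_of_mem_primeFactors hq⟩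
    apply PJ_one q Q.t Q.k X T
    intro i
    rw [← hY5]
    have : (q : ℤ) ∣ r := by exact_mod_cast Nat.dvd_of_mem_primeFactors hq
    exact this.trans (h i)
  choose c hc using hone
  have hcard : Fintype.card ({q // q ∈ r.primeFactors} → Fin 6) = 6 ^ r.primeFactors.card := by
    rw [Fintype.card_fun, Fintype.card_fin, Fintype.card_coe]
  let e := Fintype.equivFinOfCardEq hcard
  refine ⟨fun i => e (fun q => c q i), fun i j hij => ?_⟩
  have h1 : (fun q => c q i) = fun q => c q j := e.injective hij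
  rw [hdet]
  have h2 : ∀ q ∈ r.primeFactors, (q : ℤ) ∣ T i * X j - X i * T j := by
    intro q hq
    exact hc ⟨q, hq⟩ i j (congrFun h1 ⟨q, hq⟩)
  have h3 : r ∣ (T i * X j - X i * T j).natAbs := by
    rw [← Nat.prod_primeFactors_of_squarefree hr]
    apply Finset.prod_primes_dvd
    · intro q hq
      exact (Nat.prime_of_mem_primeFactors hq).prime
    · intro q hq
      exact Int.natCast_dvd.1 (h2 q hq)
  exact Int.natCast_dvd.2 h3

end Pool.Agent.helper28.LT
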